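import Mathlib
import Pool.Agent.H60SE.Gap

/-!
# The critical Sobolev exponent of the group of compactly supported symplectomorphisms

`G = Symp_ct(ℝ²ⁿ)` with the direct limit topology (`SympCt n`). The exponent `2n` is critical for
the second derivatives of the elements of `G`: for `q > 2n` the homotopy class of a family with
bounded `∫ |D²φ|^q` is determined by its values up to a small error, and there are only finitely
many classes with supports in a given compact set; for `q ≥ 2n` the homotopy classes are open in the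
norm of `W^{2,q}`, uniformly on totally bounded sets of families; for `q < 2n` every homotopy class is dense in the norm of `W^{2,q}`, and at
`q = 2n` the distance stays bounded. Hence (b) (and (a), for families over spheres) is equivalent
to the energy gap for any one exponent `q ≠ 2n`.

Proof. By the Poincaré inequality on cubes and Jensen's inequality the mean oscillation of `Dφ` at
the scale `r` is at most `c (r^(q - 2n) ∫ |D²φ|^q)^(2/q)`, so that the theorem on small mean
oscillation applies at small scales. For `q < 2n` one replaces `g` by `f` times a small copy of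
`f⁻¹ g`.
-/

set_option autoImplicit false

open Pool.Agent.W71.EC Pool.Agent.H60SE MeasureTheory

namespace Pool.Agent.Results.MP_ec5dc5_gt.CriticalExponent

variable {n : ℕ}

/-- All energies of the members of the family are at most `E`. -/
def EnergyLe {C : Type} (q E : ℝ) (f : C → SympCt n) : Prop := ∀ p, energy q (f p) ≤ E

/-- Homotopy classes of families with energies at most `E` are determined by the values up to the
error `ε` in `L^s`. -/
def DeterminedBy (n : ℕ) (q E s ε : ℝ) : Prop :=
  ∀ (C : Type) [TopologicalSpace C] [CompactSpace C] (f g : C(C, SympCt n)),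
    EnergyLe q E f → EnergyLe q E g → (∀ p, dq 0 s (f p) (g p) ≤ ε) →
    f.HomotopicRel g {p | f p = g p}

/-- There are finitely many homotopy classes of `L`-Lipschitz families in `supportedIn K` with
energies at most `E`, relative to any set `A`. -/
def FinitelyMany (n : ℕ) (q E : ℝ) : Prop :=
  ∀ L : ℝ, 0 < L → ∀ K : Set (R2 n), IsCompact K →
    ∀ (C : Type) [MetricSpace C] [CompactSpace C] (A : Set C) (f₀ : C(C, SympCt n)),
      ∃ S : Finset C(C, SympCt n), ∀ f : C(C, SympCt n),
        (∀ p, f p ∈ supportedIn K) → EnergyLe q E f →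
        (∀ p p' x, ‖(f p).toEquiv x - (f p').toEquiv x‖ ≤ L * dist p p') →
        (∀ p ∈ A, f p = f₀ p) → ∃ g ∈ S, f.HomotopicRel g A

/-- Exponents `q > 2n`. -/
def Supercritical (n : ℕ) : Prop :=
  ∀ q : ℝ, 2 * n < q → ∀ E : ℝ,
    (∀ s : ℝ, 1 ≤ s → ∃ ε : ℝ, 0 < ε ∧ DeterminedBy n q E s ε) ∧ FinitelyMany n q E

/-- The set `S` of families is totally bounded for the supremum of the `L^q` distances of the second
derivatives, for example a finite set or the terms of a Cauchy sequence. -/
def TotBdd {C : Type} [TopologicalSpace C] (q : ℝ) (S : Set C(C, SympCt n)) : Prop :=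
  ∀ η : ℝ, 0 < η → ∃ T : Finset C(C, SympCt n), ∀ f ∈ S, ∃ t ∈ T, ∀ p, dq 2 q (t p) (f p) ≤ η

/-- Exponents `q ≥ 2n`: the homotopy classes are open in the norm of `W^{2,q}`, and the error is
uniform on totally bounded sets of families, so that the homotopy class extends to the
completion. -/
def LocallyConstant (n : ℕ) : Prop :=
  ∀ q s : ℝ, 2 * n ≤ q → 1 ≤ s →
    ∀ (C : Type) [TopologicalSpace C] [CompactSpace C] (S : Set C(C, SympCt n)), TotBdd q S →
      ∃ ε : ℝ, 0 < ε ∧ ∀ f ∈ S, ∀ g : C(C, SympCt n),
        (∀ p, dq 0 s (f p) (g p) ≤ ε ∧ dq 2 q (f p) (g p) ≤ ε) →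
        f.HomotopicRel g {p | f p = g p}

/-- `ψ` agrees with `φ` off the cube with centre `a` and half-side `ε`, and is near to `φ`. -/
def Near (q s ε E : ℝ) (a : R2 n) (φ ψ : SympCt n) : Prop :=
  (∀ x, x ∉ Metric.ball a ε → ψ.toEquiv x = φ.toEquiv x) ∧
  (∀ x, ‖φ.toEquiv x - ψ.toEquiv x‖ < ε ∧ ‖fderiv ℝ ψ.toEquiv x‖ ≤ E) ∧
  dq 1 s φ ψ < ε ∧ dq 2 q φ ψ < ε ∧ dq 2 (2 * n) φ ψ ≤ E

/-- Exponents `q < 2n`: every homotopy class is dense in the norm of `W^{2,q}`, by changes inside a
small cube, with bounded distance at the exponent `2n`. -/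
def Subcritical (n : ℕ) : Prop :=
  ∀ (C : Type) [TopologicalSpace C] [CompactSpace C] (f g : C(C, SympCt n)),
    ∃ E : ℝ, ∀ q s : ℝ, 0 < q → q < 2 * n → 0 < s → ∀ (ε : ℝ) (a : R2 n), 0 < ε →
      ∃ h : C(C, SympCt n), g.HomotopicRel h {p | f p = g p} ∧ ∀ p, Near q s ε E a (f p) (h p)

/-- Exponents `q ≠ 2n`: all families over `C` are homotopic if and only if those of small energy
are homotopic. -/
def GapElsewhere (n : ℕ) : Prop :=
  ∀ q : ℝ, 0 < q → q ≠ 2 * n → ∀ (C : Type) [TopologicalSpace C] [CompactSpace C],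
    (∀ f g : C(C, SympCt n), f.Homotopic g) ↔
      ∃ ε : ℝ, 0 < ε ∧ ∀ f g : C(C, SympCt n), EnergyLe q ε f → EnergyLe q ε g → f.Homotopic g

/-- **The critical Sobolev exponent.** -/
theorem result (n : ℕ) : Supercritical n ∧ LocallyConstant n ∧ Subcritical n ∧ GapElsewhere n := by
  refine ⟨fun q hq E => ⟨fun s hs => ?_, ?_⟩,
    fun q s hq hs C _ _ S hS => critical n hq hs C S hS, fun C _ _ f g => subcritical n C f g,
    fun q hq hqn C _ _ => gap_iff n hq hqn C⟩
  · obtain ⟨ε, hε, h⟩ := supercritical n hq hs E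
    exact ⟨ε, hε, fun C _ _ f g hf hg hfg => h C f g hf hg hfg⟩
  intro L hL K hK C _ _ A f₀
  exact finite_classes n hq E hL hK C A f₀

end Pool.Agent.Results.MP_ec5dc5_gt.CriticalExponent
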